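import Mathlib
import Pool.Agent.HL26.SieveD
import Pool.Agent.HL26.Second

/-!
# Second moment of the primes in short windows (upper bound)
-/

set_option autoImplicit false

open Finset Filter

namespace Pool.Agent.E139

open Pool.Agent.HL26

/-- the number of primes in `[m, m + L)` -/
def W (m L : ℕ) : ℕ := ((Finset.range L).filter (fun e => Nat.Prime (m + e))).card

lemma W_le (m L : ℕ) : W m L ≤ L := by
  unfold W
  refine (card_filter_le _ _).trans ?_
  simp

lemma W_choose (m L : ℕ) : (W m L).choose 2 =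
    (((range L).powersetCard 2).filter (fun E => ∀ e ∈ E, Nat.Prime (m + e))).card := by
  unfold W
  rw [← card_powersetCard]
  congr 1
  ext E
  simp only [mem_powersetCard, mem_filter]
  constructor
  · rintro ⟨h1, h2⟩
    refine ⟨⟨fun e he => (mem_filter.mp (h1 he)).1, h2⟩, fun e he => (mem_filter.mp (h1 he)).2⟩
  · rintro ⟨⟨h1, h2⟩, h3⟩
    exact ⟨fun e he => mem_filter.mpr ⟨h1 he, h3 e he⟩, h2⟩

lemma count_le (M : ℕ) (E : Finset ℕ) :
    ((range M).filter (fun m => ∀ e ∈ E, Nat.Prime (m + e))).card ≤ tupleCount (M:ℝ) E + 1 := by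
  unfold tupleCount
  rw [Nat.floor_natCast]
  refine (card_le_card (t := insert 0 ((Icc 1 M).filter (fun m => ∀ e ∈ E, Nat.Prime (m + e)))) ?_).trans
    (card_insert_le _ _)
  intro m hm
  rw [mem_filter, mem_range] at hm
  rw [mem_insert, mem_filter, mem_Icc]
  rcases Nat.eq_zero_or_pos m with h | h
  · exact Or.inl h
  · exact Or.inr ⟨⟨h, hm.1.le⟩, hm.2⟩

lemma inadm (M : ℕ) (E : Finset ℕ) (hE : E.card = 2) (h : ¬ ∀ p : ℕ, p.Prime → nu E p < p) :
    tupleCount (M:ℝ) E ≤ 2 := by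
  push Not at h
  obtain ⟨p, hp, hnu⟩ := h
  have h1 : nu E p ≤ 2 := by
    unfold nu
    exact card_image_le.trans hE.le
  have hp2 : p = 2 := le_antisymm (hnu.trans h1) hp.two_le
  subst hp2
  obtain ⟨a, b, hab, rfl⟩ := card_eq_two.mp hE
  have hne : (a : ZMod 2) ≠ (b : ZMod 2) := by
    intro hc
    have : nu {a, b} 2 ≤ 1 := by
      unfold nu
      rw [image_insert, image_singleton, hc]
      simp
    omega
  have hpar : a % 2 ≠ b % 2 := by
    intro hc
    exact hne ((ZMod.natCast_eq_natCast_iff' a b 2).mpr hc)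
  unfold tupleCount
  refine (card_le_card (t := Icc 1 2) ?_).trans (by simp)
  intro m hm
  rw [mem_filter, mem_Icc] at hm
  have ha := hm.2 a (by simp)
  have hb := hm.2 b (by simp)
  rw [mem_Icc]
  refine ⟨hm.1.1, ?_⟩
  rcases ha.eq_two_or_odd with h2 | h2
  · omega
  · rcases hb.eq_two_or_odd with h3 | h3
    · omega
    · omega

lemma ev_ratio : ∀ᶠ M : ℕ in atTop, (1:ℝ) ≤ (M:ℝ) / (Real.log M) ^ 2 := by
  have h := isLittleO_log_rpow_rpow_atTop (2 : ℝ) (show (0:ℝ) < 1 by norm_num)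
  have h2 : ∀ᶠ x : ℝ in atTop, (1:ℝ) ≤ x / (Real.log x) ^ 2 := by
    filter_upwards [h.bound (show (0:ℝ) < 1 by norm_num), eventually_gt_atTop 1] with x hx hx1
    have hl : 0 < Real.log x := Real.log_pos hx1
    rw [Real.norm_of_nonneg (by positivity), Real.norm_of_nonneg (by positivity)] at hx
    rw [le_div_iff₀ (by positivity)]
    have h3 : Real.log x ^ (2:ℝ) = Real.log x ^ 2 := by norm_cast
    rw [h3, Real.rpow_one] at hx
    linarith
  exact tendsto_natCast_atTop_atTop.eventually h2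

lemma sum_choose_le : ∃ C : ℝ, 0 < C ∧ ∀ᶠ M : ℕ in atTop, ∀ L : ℕ,
    ∑ m ∈ range M, ((W m L).choose 2 : ℝ) ≤ C * ((L:ℝ) + 1) ^ 2 * ((M:ℝ) / (Real.log M) ^ 2) := by
  obtain ⟨C1, hC1, hs⟩ := exists_sieve_bound 2 (by norm_num)
  obtain ⟨C2, hC2, hsq⟩ := sum_singularSeries_sq_le 2 le_rfl
  refine ⟨C1 * (1 + C2) + 3, by positivity, ?_⟩
  filter_upwards [tendsto_natCast_atTop_atTop.eventually hs, ev_ratio] with M hM hR L
  have hswap : ∑ m ∈ range M, ((W m L).choose 2 : ℝ) =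
      ∑ E ∈ (range L).powersetCard 2,
        (((range M).filter (fun m => ∀ e ∈ E, Nat.Prime (m + e))).card : ℝ) := by
    have h1 : ∀ m, ((W m L).choose 2 : ℝ) = ∑ E ∈ (range L).powersetCard 2,
        (if ∀ e ∈ E, Nat.Prime (m + e) then (1:ℝ) else 0) := by
      intro m
      rw [W_choose, card_filter]
      push_cast
      rfl
    have h2 : ∀ E : Finset ℕ, (((range M).filter (fun m => ∀ e ∈ E, Nat.Prime (m + e))).card : ℝ) =
        ∑ m ∈ range M, (if ∀ e ∈ E, Nat.Prime (m + e) then (1:ℝ) else 0) := by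
      intro E
      rw [card_filter]
      push_cast
      rfl
    simp_rw [h1, h2]
    rw [sum_comm]
  rw [hswap]
  have hpt : ∀ E ∈ (range L).powersetCard 2,
      (((range M).filter (fun m => ∀ e ∈ E, Nat.Prime (m + e))).card : ℝ) ≤
        C1 * (1 + (singularSeries E) ^ 2) * ((M:ℝ) / (Real.log M) ^ 2) + 3 := by
    intro E hE
    have hcard := (mem_powersetCard.mp hE).2
    have h1 : (((range M).filter (fun m => ∀ e ∈ E, Nat.Prime (m + e))).card : ℝ) ≤
        (tupleCount (M:ℝ) E : ℝ) + 1 := by exact_mod_cast count_le M E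
    have hR0 : 0 ≤ (M:ℝ) / (Real.log M) ^ 2 := by positivity
    by_cases hadm : ∀ p : ℕ, p.Prime → nu E p < p
    · have h2 := hM E hcard hadm
      have h3 : singularSeries E ≤ 1 + (singularSeries E) ^ 2 := by nlinarith [sq_nonneg (singularSeries E - 1), sq_nonneg (singularSeries E)]
      have h4 : C1 * (singularSeries E * ((M:ℝ) / (Real.log M) ^ 2)) ≤
          C1 * (1 + (singularSeries E) ^ 2) * ((M:ℝ) / (Real.log M) ^ 2) := by
        rw [mul_assoc]
        exact mul_le_mul_of_nonneg_left (mul_le_mul_of_nonneg_right h3 hR0) hC1.le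
      linarith
    · have h2 : (tupleCount (M:ℝ) E : ℝ) ≤ 2 := by exact_mod_cast inadm M E hcard hadm
      have h3 : 0 ≤ C1 * (1 + (singularSeries E) ^ 2) * ((M:ℝ) / (Real.log M) ^ 2) := by positivity
      linarith
  refine (sum_le_sum hpt).trans ?_
  rw [sum_add_distrib, ← sum_mul, ← mul_sum, sum_add_distrib]
  have hsub : (range L).powersetCard 2 ⊆ (range (L + 1)).powersetCard 2 :=
    powersetCard_mono (range_mono (Nat.le_succ L))
  have h1 : ∑ E ∈ (range L).powersetCard 2, (singularSeries E) ^ 2 ≤ C2 * ((L:ℝ) + 1) ^ 2 :=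
    (sum_le_sum_of_subset_of_nonneg hsub fun _ _ _ => sq_nonneg _).trans (hsq L)
  have h2 : ((((range L).powersetCard 2).card : ℕ) : ℝ) ≤ ((L:ℝ) + 1) ^ 2 := by
    rw [card_powersetCard, card_range]
    have h3 : (L.choose 2 : ℝ) ≤ ((L ^ 2 : ℕ) : ℝ) := by exact_mod_cast Nat.choose_le_pow _ _
    push_cast at h3
    nlinarith [Nat.cast_nonneg (α := ℝ) L]
  have h4 : ∑ E ∈ (range L).powersetCard 2, (1:ℝ) ≤ ((L:ℝ) + 1) ^ 2 := by
    rw [sum_const, nsmul_eq_mul, mul_one]; exact h2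
  have h5 : ∑ E ∈ (range L).powersetCard 2, (3:ℝ) ≤ 3 * ((L:ℝ) + 1) ^ 2 := by
    rw [sum_const, nsmul_eq_mul]; linarith
  have hR0 : 0 ≤ (M:ℝ) / (Real.log M) ^ 2 := by positivity
  have h6 : C1 * (∑ E ∈ (range L).powersetCard 2, (1:ℝ) +
      ∑ E ∈ (range L).powersetCard 2, (singularSeries E) ^ 2) * ((M:ℝ) / (Real.log M) ^ 2) ≤
      C1 * (1 + C2) * ((L:ℝ) + 1) ^ 2 * ((M:ℝ) / (Real.log M) ^ 2) := by
    apply mul_le_mul_of_nonneg_right _ hR0
    calc _ ≤ C1 * (((L:ℝ) + 1) ^ 2 + C2 * ((L:ℝ) + 1) ^ 2) :=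
          mul_le_mul_of_nonneg_left (add_le_add h4 h1) hC1.le
      _ = _ := by ring
  have h7 : 3 * ((L:ℝ) + 1) ^ 2 ≤ 3 * ((L:ℝ) + 1) ^ 2 * ((M:ℝ) / (Real.log M) ^ 2) :=
    le_mul_of_one_le_right (by positivity) hR
  calc _ ≤ C1 * (1 + C2) * ((L:ℝ) + 1) ^ 2 * ((M:ℝ) / (Real.log M) ^ 2) +
        3 * ((L:ℝ) + 1) ^ 2 * ((M:ℝ) / (Real.log M) ^ 2) := by linarith
    _ = _ := by ring

end Pool.Agent.E139
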