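import Mathlib
import Pool.Agent.E139.Sm

/-!
# Second moment of the primes in the blocks of length `H`
-/

set_option autoImplicit false

open Finset Filter

namespace Pool.Agent.E139

lemma sum_W (M L : ℕ) : ∑ m ∈ range M, W m L ≤ L * Nat.primeCounting (M + L) := by
  unfold W
  simp_rw [card_filter]
  rw [sum_comm]
  have h : ∀ e ∈ range L, ∑ m ∈ range M, (if Nat.Prime (m + e) then 1 else 0) ≤
      Nat.primeCounting (M + L) := by
    intro e he
    rw [mem_range] at he
    rw [← card_filter, Nat.primeCounting, Nat.primeCounting', Nat.count_eq_card_filter_range]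
    apply card_le_card_of_injOn (fun m => m + e)
    · intro m hm
      simp only [coe_filter, mem_range, Set.mem_ofPred_eq] at hm ⊢
      exact ⟨by omega, hm.2⟩
    · intro a _ b _ hab
      simpa using hab
  refine (sum_le_sum h).trans ?_
  rw [sum_const, card_range, smul_eq_mul]

lemma pi_upper : ∀ᶠ x : ℝ in atTop, (Nat.primeCounting ⌊x⌋₊ : ℝ) ≤ 3 * x / Real.log x := by
  have h4 : Real.log 4 ≤ 2 := by
    have h1 : Real.log 4 = 2 * Real.log 2 := by
      rw [show (4:ℝ) = 2 ^ 2 by norm_num, Real.log_pow]; norm_num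
    have := Real.log_two_lt_d9
    linarith
  filter_upwards [Chebyshev.eventually_primeCounting_le (ε := 1) one_pos, eventually_gt_atTop 1]
    with x hx hx1
  have hl : 0 < Real.log x := Real.log_pos hx1
  refine hx.trans ?_
  apply div_le_div_of_nonneg_right _ hl.le
  nlinarith

lemma SM : ∃ C : ℝ, 0 < C ∧ ∀ᶠ M : ℕ in atTop, ∀ L : ℕ, Real.log M ≤ L → L ≤ M →
    ∑ m ∈ range M, ((W m L : ℝ)) ^ 2 ≤ C * (L:ℝ) ^ 2 * ((M:ℝ) / (Real.log M) ^ 2) := by
  obtain ⟨C, hC, h⟩ := sum_choose_le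
  refine ⟨8 * C + 6, by positivity, ?_⟩
  have hpi : ∀ᶠ M : ℕ in atTop, (Nat.primeCounting (2 * M) : ℝ) ≤ 3 * (2 * (M:ℝ)) / Real.log (2 * M) := by
    have ht : Tendsto (fun M : ℕ => 2 * (M:ℝ)) atTop atTop :=
      tendsto_natCast_atTop_atTop.const_mul_atTop (by norm_num)
    filter_upwards [ht.eventually pi_upper] with M hM
    have : ⌊2 * (M:ℝ)⌋₊ = 2 * M := by
      have : (2 * (M:ℝ)) = ((2 * M : ℕ) : ℝ) := by push_cast; rfl
      rw [this, Nat.floor_natCast]
    rwa [this] at hM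
  filter_upwards [h, hpi, eventually_ge_atTop 3] with M hM hpiM hM3 L hL hLM
  have hM3' : (3:ℝ) ≤ M := by exact_mod_cast hM3
  have hl1 : 1 ≤ Real.log M := by
    rw [← Real.log_exp 1]
    apply Real.log_le_log (Real.exp_pos 1)
    linarith [Real.exp_one_lt_d9]
  have hL1 : 1 ≤ (L:ℝ) := hl1.trans hL
  have hsq : ∀ m, ((W m L : ℝ)) ^ 2 = 2 * ((W m L).choose 2 : ℝ) + (W m L : ℝ) := by
    intro m
    rw [Nat.cast_choose_two]
    ring
  simp_rw [hsq]
  rw [sum_add_distrib, ← mul_sum]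
  have h1 := hM L
  have hR0 : 0 ≤ (M:ℝ) / (Real.log M) ^ 2 := by positivity
  have h2 : ((L:ℝ) + 1) ^ 2 ≤ 4 * (L:ℝ) ^ 2 := by nlinarith
  have h3 : C * ((L:ℝ) + 1) ^ 2 * ((M:ℝ) / (Real.log M) ^ 2) ≤
      4 * C * (L:ℝ) ^ 2 * ((M:ℝ) / (Real.log M) ^ 2) := by
    apply mul_le_mul_of_nonneg_right _ hR0
    nlinarith
  have h4 : ∑ m ∈ range M, (W m L : ℝ) ≤ L * (Nat.primeCounting (2 * M) : ℝ) := by
    have h5 : ∑ m ∈ range M, W m L ≤ L * Nat.primeCounting (2 * M) :=
      (sum_W M L).trans (Nat.mul_le_mul_left _ (Nat.monotone_primeCounting (by omega)))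
    exact_mod_cast h5
  have h6 : (Nat.primeCounting (2 * M) : ℝ) ≤ 6 * (M:ℝ) / Real.log M := by
    refine hpiM.trans ?_
    have h7 : Real.log M ≤ Real.log (2 * M) := Real.log_le_log (by linarith) (by linarith)
    rw [show 3 * (2 * (M:ℝ)) = 6 * (M:ℝ) by ring]
    exact div_le_div_of_nonneg_left (by positivity) (by linarith) h7
  have h8 : (L:ℝ) * (6 * (M:ℝ) / Real.log M) ≤ 6 * (L:ℝ) ^ 2 * ((M:ℝ) / (Real.log M) ^ 2) := by
    have h9 : 6 * (M:ℝ) / Real.log M = 6 * Real.log M * ((M:ℝ) / (Real.log M) ^ 2) := by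
      field_simp
    rw [h9]
    have h10 : (L:ℝ) * (6 * Real.log M * ((M:ℝ) / (Real.log M) ^ 2)) =
        6 * ((L:ℝ) * Real.log M) * ((M:ℝ) / (Real.log M) ^ 2) := by ring
    rw [h10]
    apply mul_le_mul_of_nonneg_right _ hR0
    nlinarith
  have h11 := mul_le_mul_of_nonneg_left h6 (by linarith : (0:ℝ) ≤ L)
  linarith

/-- the second moment of the numbers of primes in the blocks `[gH, (g+1)H)` -/
lemma blocks : ∃ C : ℝ, 0 < C ∧ ∀ᶠ X : ℕ in atTop, ∀ H G : ℕ, Real.log X ≤ H → 2 * H ≤ X →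
    (H:ℝ) * (Real.log X) ^ 2 ≤ X → G * H ≤ X →
    ∑ g ∈ range G, ((W (g * H) H : ℝ)) ^ 2 ≤ C * (H:ℝ) * ((X:ℝ) / (Real.log X) ^ 2) := by
  obtain ⟨C, hC, h⟩ := SM
  refine ⟨4 * C + 1, by positivity, ?_⟩
  filter_upwards [h, eventually_ge_atTop 3] with X hX hX3 H G hH h2H hHX hG
  have hX3' : (3:ℝ) ≤ X := by exact_mod_cast hX3
  have hl1 : 1 ≤ Real.log X := by
    rw [← Real.log_exp 1]
    apply Real.log_le_log (Real.exp_pos 1)
    linarith [Real.exp_one_lt_d9]
  have hH1 : 1 ≤ (H:ℝ) := hl1.trans hH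
  have hR0 : 0 ≤ (X:ℝ) / (Real.log X) ^ 2 := by positivity
  rcases G with _ | G
  · simp only [range_zero, sum_empty]
    positivity
  rw [sum_range_succ']
  have hind : ∀ G' : ℕ, (H:ℝ) * ∑ g ∈ range G', ((W ((g + 1) * H) H : ℝ)) ^ 2 ≤
      ∑ m ∈ range (G' * H), ((W m (2 * H) : ℝ)) ^ 2 := by
    intro G'
    induction G' with
    | zero => simp
    | succ n ih =>
      have hr : range ((n + 1) * H) = range (n * H + H) := by rw [Nat.succ_mul]
      rw [sum_range_succ, mul_add, hr, sum_range_add]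
      apply add_le_add ih
      have hpt : ∀ i ∈ range H, ((W ((n + 1) * H) H : ℝ)) ^ 2 ≤ ((W (n * H + i) (2 * H) : ℝ)) ^ 2 := by
        intro i hi
        rw [mem_range] at hi
        have : W ((n + 1) * H) H ≤ W (n * H + i) (2 * H) := by
          unfold W
          apply card_le_card_of_injOn (fun e => e + (H - i))
          · intro e he
            simp only [coe_filter, mem_range, Set.mem_ofPred_eq] at he ⊢
            refine ⟨by omega, ?_⟩
            have : n * H + i + (e + (H - i)) = (n + 1) * H + e := by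
              have : (n + 1) * H = n * H + H := Nat.succ_mul n H
              omega
            rw [this]
            exact he.2
          · intro a _ b _ hab
            simpa using hab
        have h' : (W ((n + 1) * H) H : ℝ) ≤ (W (n * H + i) (2 * H) : ℝ) := by exact_mod_cast this
        exact pow_le_pow_left₀ (by positivity) h' 2
      calc (H:ℝ) * ((W ((n + 1) * H) H : ℝ)) ^ 2 = ∑ _i ∈ range H, ((W ((n + 1) * H) H : ℝ)) ^ 2 := by
            rw [sum_const, card_range, nsmul_eq_mul]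
        _ ≤ _ := sum_le_sum hpt
  have h0 : ((W (0 * H) H : ℝ)) ^ 2 ≤ (H:ℝ) * ((X:ℝ) / (Real.log X) ^ 2) := by
    have h1 : (W (0 * H) H : ℝ) ≤ H := by exact_mod_cast W_le _ _
    have h2 : ((W (0 * H) H : ℝ)) ^ 2 ≤ (H:ℝ) * H := by
      rw [← sq]; exact pow_le_pow_left₀ (by positivity) h1 2
    refine h2.trans (mul_le_mul_of_nonneg_left ?_ (by linarith))
    rw [le_div_iff₀ (by positivity)]
    exact hHX
  have h1 : ∑ m ∈ range (G * H), ((W m (2 * H) : ℝ)) ^ 2 ≤
      C * ((2 * H : ℕ) : ℝ) ^ 2 * ((X:ℝ) / (Real.log X) ^ 2) := by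
    refine le_trans ?_ (hX (2 * H) (by push_cast; linarith) h2H)
    apply sum_le_sum_of_subset_of_nonneg
    · apply range_mono
      have : (G + 1) * H = G * H + H := Nat.succ_mul G H
      omega
    · intro _ _ _; positivity
  have h2 : (H:ℝ) * ∑ g ∈ range G, ((W ((g + 1) * H) H : ℝ)) ^ 2 ≤
      (H:ℝ) * (4 * C * H * ((X:ℝ) / (Real.log X) ^ 2)) := by
    refine (hind G).trans (h1.trans ?_)
    push_cast
    apply le_of_eq
    ring
  have h3 := le_of_mul_le_mul_left h2 (by linarith)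
  linarith

end Pool.Agent.E139
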