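import Mathlib
import Pool.Agent.E139.Blk

/-!
# The function `f k = π (2 k) - π k`
-/

set_option autoImplicit false

open Finset Filter

namespace Pool.Agent.E139

/-- the number of primes in `(k, 2k]` -/
def f (k : ℕ) : ℕ := Nat.primeCounting (2 * k) - Nat.primeCounting k

lemma pi_succ (n : ℕ) : Nat.primeCounting (n + 1) =
    Nat.primeCounting n + if Nat.Prime (n + 1) then 1 else 0 := by
  simp [Nat.primeCounting, Nat.primeCounting', Nat.count_succ]

lemma pi_mono {a b : ℕ} (h : a ≤ b) : Nat.primeCounting a ≤ Nat.primeCounting b :=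
  Nat.monotone_primeCounting h

lemma f_add (k : ℕ) : f k + Nat.primeCounting k = Nat.primeCounting (2 * k) := by
  have := pi_mono (show k ≤ 2 * k by omega)
  unfold f
  omega

lemma f_zero : f 0 = 0 := by simp [f]

lemma f_one : f 1 = 1 := by
  have h0 : Nat.primeCounting 1 = 0 := by decide
  have h1 := pi_succ 1
  rw [h0, if_pos (by norm_num)] at h1
  unfold f
  rw [show 2 * 1 = 1 + 1 by norm_num, h1, h0]

lemma f_succ (m : ℕ) : f (m + 1) ≤ f m + 1 := by
  have h1 := pi_succ (2 * m)
  have h2 := pi_succ (2 * m + 1)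
  have h3 := pi_mono (show m ≤ m + 1 by omega)
  have h4 := f_add m
  have h5 := f_add (m + 1)
  rw [show 2 * (m + 1) = 2 * m + 1 + 1 by ring] at h5
  rcases Nat.eq_zero_or_pos m with h | h
  · subst h
    rw [f_one]
    omega
  · have h6 : ¬ Nat.Prime (2 * m + 1 + 1) := by
      intro hp
      rcases hp.eq_two_or_odd with h7 | h7 <;> omega
    rw [if_neg h6] at h2
    split_ifs at h1 <;> omega

lemma ivt : ∀ m : ℕ, 1 ≤ m → ∀ v : ℕ, 1 ≤ v → v ≤ f m → ∃ m', 1 ≤ m' ∧ m' ≤ m ∧ f m' = v := by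
  intro m hm
  induction m, hm using Nat.le_induction with
  | base =>
    intro v hv hvm
    rw [f_one] at hvm
    exact ⟨1, le_rfl, le_rfl, by rw [f_one]; omega⟩
  | succ n hn ih =>
    intro v hv hvm
    by_cases h : v ≤ f n
    · obtain ⟨m', h1, h2, h3⟩ := ih v hv h
      exact ⟨m', h1, by omega, h3⟩
    · have := f_succ n
      exact ⟨n + 1, by omega, le_rfl, by omega⟩

lemma pi_le {a b s L : ℕ} (h1 : s ≤ a) (h2 : b < s + L) :
    Nat.primeCounting b ≤ Nat.primeCounting a + W s L := by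
  have h3 : (range (b + 1)).filter Nat.Prime ⊆ (range (a + 1)).filter Nat.Prime ∪
      ((range L).filter (fun e => Nat.Prime (s + e))).image (fun e => s + e) := by
    intro p hp
    rw [mem_filter, mem_range] at hp
    rw [mem_union, mem_filter, mem_range, mem_image]
    by_cases h : p < a + 1
    · exact Or.inl ⟨h, hp.2⟩
    · right
      refine ⟨p - s, ?_, by omega⟩
      rw [mem_filter, mem_range]
      refine ⟨by omega, ?_⟩
      rw [show s + (p - s) = p by omega]
      exact hp.2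
  have h4 := card_le_card h3
  have h5 := (card_union_le ((range (a + 1)).filter Nat.Prime)
    (((range L).filter (fun e => Nat.Prime (s + e))).image (fun e => s + e)))
  have h6 : (((range L).filter (fun e => Nat.Prime (s + e))).image (fun e => s + e)).card ≤ W s L :=
    card_image_le
  have e1 : ∀ n, Nat.primeCounting n = ((range (n + 1)).filter Nat.Prime).card := by
    intro n
    rw [Nat.primeCounting, Nat.primeCounting', Nat.count_eq_card_filter_range]
  rw [e1, e1]
  omega

/-- the variation of `f` on a block -/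
lemma variation {Y m : ℕ} (hY : 0 < Y) :
    f m ≤ f (m / Y * Y) + (W (m / Y * Y) Y + W (m / Y * (2 * Y)) (2 * Y)) ∧
    f (m / Y * Y) ≤ f m + (W (m / Y * Y) Y + W (m / Y * (2 * Y)) (2 * Y)) := by
  set j := m / Y with hj
  have h1 : j * Y ≤ m := Nat.div_mul_le_self m Y
  have h2 : m < j * Y + Y := Nat.lt_div_mul_add hY
  have a1 := f_add m
  have a2 := f_add (j * Y)
  have b1 : Nat.primeCounting m ≤ Nat.primeCounting (j * Y) + W (j * Y) Y := pi_le le_rfl h2
  have b2 : Nat.primeCounting (2 * m) ≤ Nat.primeCounting (2 * (j * Y)) + W (j * (2 * Y)) (2 * Y) := by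
    apply pi_le
    · exact le_of_eq (by ring)
    · have : j * (2 * Y) + 2 * Y = 2 * (j * Y + Y) := by ring
      omega
  have c1 := pi_mono h1
  have c2 := pi_mono (show 2 * (j * Y) ≤ 2 * m by omega)
  constructor <;> omega

lemma pi_step (n : ℕ) : Nat.primeCounting n ≤ f (n / 2) + 1 + Nat.primeCounting (n / 2) := by
  have h1 := pi_mono (show n ≤ 2 * (n / 2) + 1 by omega)
  have h2 := pi_succ (2 * (n / 2))
  have h3 := f_add (n / 2)
  split_ifs at h2 <;> omega

lemma pi_iter {X M : ℕ} (hM : ∀ m ≤ X, f m ≤ M) (s : ℕ) :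
    Nat.primeCounting X ≤ s * (M + 1) + Nat.primeCounting (X / 2 ^ s) := by
  induction s with
  | zero => simp
  | succ s ih =>
    have h1 := pi_step (X / 2 ^ s)
    have h2 : X / 2 ^ (s + 1) = X / 2 ^ s / 2 := by rw [pow_succ, Nat.div_div_eq_div_mul]
    have h3 := hM (X / 2 ^ s / 2) ((Nat.div_le_self _ _).trans (Nat.div_le_self _ _))
    rw [h2]
    have h4 : (s + 1) * (M + 1) = s * (M + 1) + (M + 1) := by ring
    omega

lemma pi_lower : ∀ᶠ X : ℕ in atTop, (1 / 2 : ℝ) * ((X:ℝ) / Real.log X) ≤ Nat.primeCounting X := by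
  have h := Real.isLittleO_log_id_atTop.bound (show (0:ℝ) < 1 / 20 by norm_num)
  have ht : Tendsto (fun X : ℕ => (X:ℝ) + 1) atTop atTop :=
    tendsto_atTop_add_const_right _ _ tendsto_natCast_atTop_atTop
  filter_upwards [ht.eventually h, eventually_ge_atTop 3] with X hX hX3
  have hX3' : (3:ℝ) ≤ X := by exact_mod_cast hX3
  have hl : 0 < Real.log X := Real.log_pos (by linarith)
  have hl1 : 0 ≤ Real.log ((X:ℝ) + 1) := Real.log_nonneg (by linarith)
  rw [Real.norm_of_nonneg hl1] at hX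
  simp only [id] at hX
  rw [Real.norm_of_nonneg (by linarith)] at hX
  have h1 := Chebyshev.pi_ge X
  refine le_trans ?_ h1
  rw [mul_div_assoc', div_le_div_iff_of_pos_right hl]
  have h2 := Real.log_two_gt_d9
  nlinarith

/-- `f` takes a value at least `c X / log X` on `[1, X]` -/
lemma fmax : ∃ c : ℝ, 0 < c ∧ c ≤ 1 ∧ ∀ᶠ X : ℕ in atTop, ∃ m, 1 ≤ m ∧ m ≤ X ∧
    c * ((X:ℝ) / Real.log X) ≤ f m := by
  refine ⟨1 / 50, by norm_num, by norm_num, ?_⟩
  have hr : ∀ᶠ X : ℕ in atTop, (100:ℝ) ≤ (X:ℝ) / Real.log X := by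
    have h := Real.isLittleO_log_id_atTop.bound (show (0:ℝ) < 1 / 100 by norm_num)
    filter_upwards [tendsto_natCast_atTop_atTop.eventually h, eventually_ge_atTop 3] with X hX hX3
    have hX3' : (3:ℝ) ≤ X := by exact_mod_cast hX3
    have hl : 0 < Real.log X := Real.log_pos (by linarith)
    rw [Real.norm_of_nonneg hl.le] at hX
    simp only [id] at hX
    rw [Real.norm_of_nonneg (by linarith)] at hX
    rw [le_div_iff₀ hl]
    linarith
  have hup : ∀ᶠ X : ℕ in atTop, (Nat.primeCounting (X / 2 ^ 5) : ℝ) ≤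
      3 * ((X:ℝ) / 32) / Real.log ((X:ℝ) / 32) := by
    have ht : Tendsto (fun X : ℕ => (X:ℝ) / 32) atTop atTop :=
      tendsto_natCast_atTop_atTop.atTop_div_const (by norm_num)
    filter_upwards [ht.eventually pi_upper] with X hX
    have : ⌊(X:ℝ) / 32⌋₊ = X / 2 ^ 5 := by
      have h1 : (X:ℝ) / 32 = (X:ℝ) / ((2 ^ 5 : ℕ) : ℝ) := by norm_num
      rw [h1, Nat.floor_div_natCast, Nat.floor_natCast]
    rwa [this] at hX
  filter_upwards [hr, hup, pi_lower, eventually_ge_atTop 1024] with X h1 h2 h3 hX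
  have hX' : (1024:ℝ) ≤ X := by exact_mod_cast hX
  obtain ⟨m0, hm0, hmax⟩ := exists_max_image (range (X + 1)) f ⟨0, by simp⟩
  have hiter := pi_iter (X := X) (M := f m0) (fun m hm => hmax m (by simp; omega)) 5
  have hiter' : (Nat.primeCounting X : ℝ) ≤ 5 * ((f m0 : ℝ) + 1) +
      (Nat.primeCounting (X / 2 ^ 5) : ℝ) := by exact_mod_cast hiter
  have hl : 0 < Real.log X := Real.log_pos (by linarith)
  have hl32 : Real.log X / 2 ≤ Real.log ((X:ℝ) / 32) := by
    rw [Real.log_div (by positivity) (by norm_num)]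
    have h4 : Real.log 32 ≤ Real.log X / 2 := by
      have h5 : Real.log 1024 = 2 * Real.log 32 := by
        rw [show (1024:ℝ) = 32 ^ 2 by norm_num, Real.log_pow]; norm_num
      have h6 : Real.log 1024 ≤ Real.log X := Real.log_le_log (by norm_num) hX'
      linarith
    linarith
  have h7 : 3 * ((X:ℝ) / 32) / Real.log ((X:ℝ) / 32) ≤ (3 / 16) * ((X:ℝ) / Real.log X) := by
    calc 3 * ((X:ℝ) / 32) / Real.log ((X:ℝ) / 32) ≤ 3 * ((X:ℝ) / 32) / (Real.log X / 2) :=
          div_le_div_of_nonneg_left (by positivity) (by positivity) hl32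
      _ = _ := by field_simp; ring
  have h8 : (1 / 50 : ℝ) * ((X:ℝ) / Real.log X) ≤ f m0 := by linarith
  refine ⟨m0, ?_, by have := mem_range.mp hm0; omega, h8⟩
  rcases Nat.eq_zero_or_pos m0 with h | h
  · rw [h, f_zero] at h8
    norm_num at h8
    linarith
  · exact h

end Pool.Agent.E139
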