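import Mathlib
import Pool.Agent.E139.Fn

/-!
# A positive proportion of the blocks of length `log² X` contain a `k` with `f k` prime
-/

set_option autoImplicit false

open Finset Filter

namespace Pool.Agent.E139

/-- the blocks `[jY, (j+1)Y)` containing some `1 ≤ m ≤ X` with `f m` prime -/
def hit (Y X : ℕ) : Finset ℕ :=
  (range (X / Y + 1)).filter (fun j => ((Icc 1 X).filter (fun m => m / Y = j ∧ Nat.Prime (f m))).Nonempty)

/-- the variation of `f` on block `j` -/
def vr (Y j : ℕ) : ℕ := W (j * Y) Y + W (j * (2 * Y)) (2 * Y)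

/-- the intervals of length `H` met by the values of `f` on the hit blocks -/
def grid (H Y X : ℕ) : Finset ℕ :=
  (hit Y X).biUnion (fun j => Icc (f (j * Y) / H - (vr Y j / H + 1)) (f (j * Y) / H + (vr Y j / H + 1)))

lemma div_add_le {a b H : ℕ} (hH : 0 < H) : (a + b) / H ≤ a / H + b / H + 1 := by
  have h1 : a < (a / H + 1) * H := by rw [Nat.add_mul, one_mul]; exact Nat.lt_div_mul_add hH
  have h2 : b < (b / H + 1) * H := by rw [Nat.add_mul, one_mul]; exact Nat.lt_div_mul_add hH
  have h3 : (a + b) / H < a / H + b / H + 2 := by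
    rw [Nat.div_lt_iff_lt_mul hH]
    calc a + b < (a / H + 1) * H + (b / H + 1) * H := Nat.add_lt_add h1 h2
      _ = (a / H + b / H + 2) * H := by ring
  omega

lemma mem_grid {H Y X v m : ℕ} (hH : 0 < H) (hY : 0 < Y) (hm1 : 1 ≤ m) (hmX : m ≤ X) (hf : f m = v)
    (hv : v.Prime) : v / H ∈ grid H Y X := by
  unfold grid
  rw [mem_biUnion]
  refine ⟨m / Y, ?_, ?_⟩
  · unfold hit
    rw [mem_filter, mem_range]
    refine ⟨Nat.lt_succ_of_le (Nat.div_le_div_right hmX), m, ?_⟩
    rw [mem_filter, mem_Icc]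
    exact ⟨⟨hm1, hmX⟩, rfl, by rw [hf]; exact hv⟩
  · have hvar := variation (Y := Y) (m := m) hY
    rw [hf] at hvar
    change v ≤ f (m / Y * Y) + vr Y (m / Y) ∧ f (m / Y * Y) ≤ v + vr Y (m / Y) at hvar
    have h1 : v / H ≤ f (m / Y * Y) / H + vr Y (m / Y) / H + 1 :=
      (Nat.div_le_div_right hvar.1).trans (div_add_le hH)
    have h2 : f (m / Y * Y) / H ≤ v / H + vr Y (m / Y) / H + 1 :=
      (Nat.div_le_div_right hvar.2).trans (div_add_le hH)
    rw [mem_Icc]
    refine ⟨Nat.sub_le_iff_le_add.mpr ?_, ?_⟩ <;> linarith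

lemma card_grid (H Y X : ℕ) (hH : 0 < H) :
    ((grid H Y X).card : ℝ) ≤ 3 * ((hit Y X).card : ℝ) + 2 / H * ∑ j ∈ hit Y X, (vr Y j : ℝ) := by
  have hH' : (0:ℝ) < H := by exact_mod_cast hH
  have h1 : ((grid H Y X).card : ℝ) ≤ ∑ j ∈ hit Y X, (3 + 2 / H * (vr Y j : ℝ)) := by
    have h2 : (grid H Y X).card ≤ ∑ j ∈ hit Y X,
        (Icc (f (j * Y) / H - (vr Y j / H + 1)) (f (j * Y) / H + (vr Y j / H + 1))).card :=
      card_biUnion_le
    have h3 : ((grid H Y X).card : ℝ) ≤ ∑ j ∈ hit Y X,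
        ((Icc (f (j * Y) / H - (vr Y j / H + 1)) (f (j * Y) / H + (vr Y j / H + 1))).card : ℝ) := by
      exact_mod_cast h2
    refine h3.trans (sum_le_sum fun j _ => ?_)
    have h4 : (Icc (f (j * Y) / H - (vr Y j / H + 1)) (f (j * Y) / H + (vr Y j / H + 1))).card ≤
        2 * (vr Y j / H) + 3 := by
      rw [Nat.card_Icc]
      omega
    have h5 : ((vr Y j / H : ℕ) : ℝ) ≤ (vr Y j : ℝ) / H := Nat.cast_div_le
    have h6 : (((Icc (f (j * Y) / H - (vr Y j / H + 1)) (f (j * Y) / H + (vr Y j / H + 1))).card : ℕ) : ℝ) ≤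
        2 * ((vr Y j / H : ℕ) : ℝ) + 3 := by exact_mod_cast h4
    refine h6.trans ?_
    have h7 : 2 / (H:ℝ) * (vr Y j : ℝ) = 2 * ((vr Y j : ℝ) / H) := by ring
    rw [h7]
    linarith
  refine h1.trans (le_of_eq ?_)
  rw [sum_add_distrib, ← mul_sum, sum_const, nsmul_eq_mul]
  ring

/-- the primes up to `V` lie in the intervals of the grid -/
lemma pi_le_grid {H Y X V : ℕ} (hH : 0 < H)
    (hall : ∀ v, v.Prime → v ≤ V → v / H ∈ grid H Y X) :
    Nat.primeCounting V ≤ ∑ g ∈ (grid H Y X).filter (fun g => g < V / H + 1), W (g * H) H := by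
  have e1 : Nat.primeCounting V = ((range (V + 1)).filter Nat.Prime).card := by
    rw [Nat.primeCounting, Nat.primeCounting', Nat.count_eq_card_filter_range]
  rw [e1]
  rw [card_eq_sum_card_fiberwise (f := fun v => v / H)
    (t := (grid H Y X).filter (fun g => g < V / H + 1))]
  · apply sum_le_sum
    intro g _
    unfold W
    apply card_le_card_of_injOn (fun v => v - g * H)
    · intro v hv
      rw [mem_coe, mem_filter, mem_filter, mem_range] at hv
      rw [mem_coe, mem_filter, mem_range]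
      obtain ⟨⟨h1, h2⟩, h3⟩ := hv
      have h4 : g * H ≤ v := by rw [← h3]; exact Nat.div_mul_le_self v H
      have h5 : v < g * H + H := by rw [← h3]; exact Nat.lt_div_mul_add hH
      refine ⟨show v - g * H < H by omega, ?_⟩
      change Nat.Prime (g * H + (v - g * H))
      rw [show g * H + (v - g * H) = v by omega]
      exact h2
    · intro a ha b hb hab
      rw [mem_coe, mem_filter] at ha hb
      have h4 : g * H ≤ a := by rw [← ha.2]; exact Nat.div_mul_le_self a H
      have h5 : g * H ≤ b := by rw [← hb.2]; exact Nat.div_mul_le_self b H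
      simp only at hab
      omega
  · intro v hv
    rw [mem_coe, mem_filter, mem_range] at hv
    rw [mem_coe, mem_filter]
    exact ⟨hall v hv.2 (by omega), Nat.lt_succ_of_le (Nat.div_le_div_right (by omega))⟩

end Pool.Agent.E139
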