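import Mathlib
import Pool.Agent.E139.Key

/-!
# A positive proportion of the blocks is hit
-/

set_option autoImplicit false

open Finset Filter

namespace Pool.Agent.E139

lemma fin_ineq {A J C c4 S H G : ℝ} (hc : 0 < c4) (hC : 0 < C) (hJ : 0 ≤ J) (hA : 0 ≤ A)
    (hH : 0 < H) (hS : S ^ 2 ≤ J * (20 * C * H ^ 2 * A)) (hG : G ≤ 3 * J + 2 / H * S)
    (h4 : c4 * A ≤ G) : c4 / 2 * A ≤ (3 + 40 * C / c4) * J := by
  have ht : (2 / H * S) ^ 2 ≤ (c4 / 2 * A + 40 * C / c4 * J) ^ 2 := by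
    have h1 : (2 / H * S) ^ 2 = 4 / H ^ 2 * S ^ 2 := by ring
    have h2 : 4 / H ^ 2 * S ^ 2 ≤ 80 * C * J * A := by
      calc 4 / H ^ 2 * S ^ 2 ≤ 4 / H ^ 2 * (J * (20 * C * H ^ 2 * A)) :=
            mul_le_mul_of_nonneg_left hS (by positivity)
        _ = 80 * C * J * A := by field_simp; ring
    have h3 : (c4 / 2 * A + 40 * C / c4 * J) ^ 2 - 80 * C * J * A =
        (c4 / 2 * A - 40 * C / c4 * J) ^ 2 := by field_simp; ring
    have h5 := sq_nonneg (c4 / 2 * A - 40 * C / c4 * J)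
    linarith
  have h6 := abs_le_of_sq_le_sq ht (by positivity)
  have h5 := (abs_le.mp h6).2
  linarith

theorem key : ∃ c : ℝ, 0 < c ∧ ∀ᶠ X : ℕ in atTop,
    c * ((X:ℝ) / (Real.log X) ^ 2) ≤ ((hit (⌈Real.log X⌉₊ ^ 2) X).card : ℝ) := by
  obtain ⟨c0, hc0, hc01, hf⟩ := fmax
  obtain ⟨C, hC, hb⟩ := blocks
  obtain ⟨N0, hN0⟩ := eventually_atTop.mp (hb.and (pi_lower.and (eventually_ge_atTop 3)))
  set c4 : ℝ := c0 ^ 2 / (256 * C) with hc4
  have hc4p : 0 < c4 := by positivity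
  refine ⟨c4 / 2 / (3 + 40 * C / c4), by positivity, ?_⟩
  have hsqrt : Tendsto (fun X : ℕ => Real.sqrt (X:ℝ)) atTop atTop :=
    Real.tendsto_sqrt_atTop.comp tendsto_natCast_atTop_atTop
  have E1 : ∀ᶠ X : ℕ in atTop, (N0:ℝ) ≤ Real.sqrt X := hsqrt.eventually_ge_atTop _
  have E2 : ∀ᶠ X : ℕ in atTop, 128 * (Real.log X) ^ 4 ≤ Real.sqrt X := by
    have h := isLittleO_log_rpow_rpow_atTop (4 : ℝ) (show (0:ℝ) < 1 / 2 by norm_num)
    filter_upwards [tendsto_natCast_atTop_atTop.eventually (h.bound (show (0:ℝ) < 1 / 128 by norm_num)),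
      eventually_ge_atTop 3] with X hX hX3
    have hX3' : (3:ℝ) ≤ X := by exact_mod_cast hX3
    have hl : 0 < Real.log X := Real.log_pos (by linarith)
    rw [Real.norm_of_nonneg (by positivity), Real.norm_of_nonneg (by positivity)] at hX
    have h3 : Real.log X ^ (4:ℝ) = Real.log X ^ 4 := by norm_cast
    rw [h3, ← Real.sqrt_eq_rpow] at hX
    linarith
  have E3 : ∀ᶠ X : ℕ in atTop, 2 * Real.sqrt X ≤ c0 * ((X:ℝ) / Real.log X) := by
    have h := isLittleO_log_rpow_atTop (show (0:ℝ) < 1 / 2 by norm_num)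
    filter_upwards [tendsto_natCast_atTop_atTop.eventually (h.bound (show (0:ℝ) < c0 / 2 by positivity)),
      eventually_ge_atTop 3] with X hX hX3
    have hX3' : (3:ℝ) ≤ X := by exact_mod_cast hX3
    have hl : 0 < Real.log X := Real.log_pos (by linarith)
    rw [Real.norm_of_nonneg hl.le, Real.norm_of_nonneg (by positivity), ← Real.sqrt_eq_rpow] at hX
    rw [mul_div_assoc', le_div_iff₀ hl]
    have h4 : Real.sqrt X * Real.sqrt X = X := Real.mul_self_sqrt (by linarith)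
    have h5 : 0 ≤ Real.sqrt (X:ℝ) := Real.sqrt_nonneg _
    nlinarith
  have E4 : ∀ᶠ X : ℕ in atTop, 2 ≤ Real.log X := by
    have := (Real.tendsto_log_atTop.comp tendsto_natCast_atTop_atTop).eventually_ge_atTop (2:ℝ)
    exact this
  filter_upwards [hf, E1, E2, E3, E4, eventually_ge_atTop 16] with X hfX e1 e2 e3 e4 hX16
  obtain ⟨m0, hm1, hmX, hm0⟩ := hfX
  have hX : (16:ℝ) ≤ X := by exact_mod_cast hX16
  have hX0 : (0:ℝ) < X := by linarith
  set T : ℝ := Real.log X with hT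
  have hT0 : 0 < T := by linarith
  set H : ℕ := ⌈T⌉₊ with hH
  have hTH : T ≤ H := Nat.le_ceil T
  have hHT : (H:ℝ) ≤ T + 1 := (Nat.ceil_lt_add_one hT0.le).le
  have hH2T : (H:ℝ) ≤ 2 * T := by linarith
  have hHpos : 0 < H := Nat.ceil_pos.mpr hT0
  have hHr : (0:ℝ) < H := by exact_mod_cast hHpos
  set sX : ℝ := Real.sqrt X with hsX
  have hs4 : 4 ≤ sX := by
    rw [hsX]
    rw [show (4:ℝ) = Real.sqrt 16 by rw [show (16:ℝ) = 4 ^ 2 by norm_num, Real.sqrt_sq (by norm_num)]]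
    exact Real.sqrt_le_sqrt hX
  have hss : sX * sX = X := Real.mul_self_sqrt hX0.le
  have hsle : 4 * sX ≤ X := by nlinarith
  set A : ℝ := (X:ℝ) / T ^ 2 with hA
  have hApos : 0 < A := by positivity
  set V : ℕ := ⌊c0 * ((X:ℝ) / T)⌋₊ with hV
  have hVle : (V:ℝ) ≤ c0 * ((X:ℝ) / T) := Nat.floor_le (by positivity)
  have hVge : c0 * ((X:ℝ) / T) / 2 ≤ V := by
    have := Nat.lt_floor_add_one (c0 * ((X:ℝ) / T))
    rw [← hV] at this
    linarith
  have hVs : sX ≤ V := by linarith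
  have hVf : V ≤ f m0 := by
    have : (V:ℝ) ≤ (f m0 : ℝ) := hVle.trans hm0
    exact_mod_cast this
  have hXT : (X:ℝ) / T ≤ X / 2 := div_le_div_of_nonneg_left hX0.le (by norm_num) e4
  have hVX2 : (V:ℝ) ≤ X / 2 := by
    have h1 : c0 * ((X:ℝ) / T) ≤ 1 * ((X:ℝ) / T) := mul_le_mul_of_nonneg_right hc01 (by positivity)
    linarith
  have hT2 : 4 ≤ T ^ 2 := by nlinarith
  have hT4 : T ^ 2 * T ^ 2 = T ^ 4 := by ring
  have hH2 : (H:ℝ) ^ 2 ≤ 4 * T ^ 2 := by nlinarith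
  have hHs : (H:ℝ) ≤ sX := by nlinarith
  have hV0 : (0:ℝ) < V := by linarith
  have hlogV : T / 2 ≤ Real.log V := by
    have h1 : Real.log sX ≤ Real.log V := Real.log_le_log (by linarith) hVs
    rw [hsX, Real.log_sqrt hX0.le] at h1
    exact h1
  have hlogVT : Real.log V ≤ T := Real.log_le_log hV0 (by linarith)
  have hV3 := (hN0 V (by have : (N0:ℝ) ≤ V := e1.trans hVs
                         exact_mod_cast this)).2
  -- the primes up to V are in the grid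
  set Y : ℕ := H ^ 2 with hY
  have hYpos : 0 < Y := by positivity
  have hYr : (Y:ℝ) = (H:ℝ) ^ 2 := by rw [hY]; push_cast; rfl
  have hall : ∀ v, v.Prime → v ≤ V → v / H ∈ grid H Y X := by
    intro v hv hvV
    obtain ⟨m', h1, h2, h3⟩ := ivt m0 hm1 v hv.one_lt.le (hvV.trans hVf)
    exact mem_grid hHpos hYpos h1 (h2.trans hmX) h3 hv
  have hpi := pi_le_grid hHpos hall
  set GV := (grid H Y X).filter (fun g => g < V / H + 1) with hGV
  have hpi' : (Nat.primeCounting V : ℝ) ≤ ∑ g ∈ GV, (W (g * H) H : ℝ) := by exact_mod_cast hpi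
  have hcs : (∑ g ∈ GV, (W (g * H) H : ℝ)) ^ 2 ≤ (GV.card : ℝ) * ∑ g ∈ GV, (W (g * H) H : ℝ) ^ 2 :=
    sq_sum_le_card_mul_sum_sq
  have hsub : GV ⊆ range (V / H + 1) := by
    intro g hg
    rw [hGV, mem_filter] at hg
    exact mem_range.mpr hg.2
  have hVH : (((V + H : ℕ)) : ℝ) = (V:ℝ) + H := by push_cast; rfl
  have hVHX : (V:ℝ) + H ≤ X := by linarith
  have hb1 := (hN0 (V + H) (by have : (N0:ℝ) ≤ ((V + H : ℕ) : ℝ) := by rw [hVH]; linarith
                               exact_mod_cast this)).1 H (V / H + 1)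
    (by rw [hVH]; exact (Real.log_le_log (by linarith) hVHX).trans hTH)
    (by have : ((2 * H : ℕ) : ℝ) ≤ ((V + H : ℕ) : ℝ) := by rw [hVH]; push_cast; linarith
        exact_mod_cast this)
    (by rw [hVH]
        have h1 : Real.log ((V:ℝ) + H) ≤ T := Real.log_le_log (by linarith) hVHX
        have h2 : 0 ≤ Real.log ((V:ℝ) + H) := Real.log_nonneg (by linarith)
        have h3 : (Real.log ((V:ℝ) + H)) ^ 2 ≤ T ^ 2 := pow_le_pow_left₀ h2 h1 2
        have h4 : (H:ℝ) * (Real.log ((V:ℝ) + H)) ^ 2 ≤ (2 * T) * T ^ 2 :=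
          mul_le_mul hH2T h3 (by positivity) (by positivity)
        have h5 : 2 * T * T ^ 2 ≤ 128 * T ^ 4 := by nlinarith [pow_pos hT0 3]
        linarith)
    (by have : V / H * H ≤ V := Nat.div_mul_le_self V H
        rw [Nat.succ_mul]
        omega)
  have hsumV : ∑ g ∈ GV, (W (g * H) H : ℝ) ^ 2 ≤ 16 * C * A := by
    have h1 : ∑ g ∈ GV, (W (g * H) H : ℝ) ^ 2 ≤ ∑ g ∈ range (V / H + 1), (W (g * H) H : ℝ) ^ 2 :=
      sum_le_sum_of_subset_of_nonneg hsub fun _ _ _ => sq_nonneg _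
    refine h1.trans (hb1.trans ?_)
    rw [hVH]
    have h2 : ((V:ℝ) + H) / (Real.log ((V:ℝ) + H)) ^ 2 ≤ (2 * V) / (T / 2) ^ 2 := by
      apply div_le_div₀ (by positivity) (by linarith) (by positivity)
      apply pow_le_pow_left₀ (by positivity)
      exact hlogV.trans (Real.log_le_log hV0 (by linarith))
    have h3 : (2 * (V:ℝ)) / (T / 2) ^ 2 ≤ 8 * (X / T ^ 3) := by
      have h4 : (2 * (V:ℝ)) / (T / 2) ^ 2 = 8 * (V:ℝ) / T ^ 2 := by field_simp; ring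
      have h5 : 8 * ((X:ℝ) / T ^ 3) = 8 * (X / T) / T ^ 2 := by field_simp
      rw [h4, h5]
      apply div_le_div_of_nonneg_right _ (by positivity)
      have h6 : c0 * ((X:ℝ) / T) ≤ 1 * ((X:ℝ) / T) := mul_le_mul_of_nonneg_right hc01 (by positivity)
      linarith
    calc C * (H:ℝ) * (((V:ℝ) + H) / (Real.log ((V:ℝ) + H)) ^ 2) ≤ C * (2 * T) * (8 * (X / T ^ 3)) :=
          mul_le_mul (mul_le_mul_of_nonneg_left hH2T hC.le) (h2.trans h3) (by positivity) (by positivity)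
      _ = 16 * C * A := by rw [hA]; field_simp; ring
  have hpiV : c0 / 4 * A ≤ Nat.primeCounting V := by
    refine le_trans ?_ hV3.1
    have h1 : (V:ℝ) / T ≤ V / Real.log V :=
      div_le_div_of_nonneg_left hV0.le (by linarith) hlogVT
    have h2 : c0 * ((X:ℝ) / T) / 2 / T ≤ (V:ℝ) / T := div_le_div_of_nonneg_right hVge hT0.le
    have h3 : c0 / 4 * A = 1 / 2 * (c0 * ((X:ℝ) / T) / 2 / T) := by rw [hA]; field_simp; ring
    rw [h3]
    linarith
  have hGVc : c4 * A ≤ (GV.card : ℝ) := by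
    have h1 : (c0 / 4 * A) ^ 2 ≤ (GV.card : ℝ) * (16 * C * A) := by
      calc (c0 / 4 * A) ^ 2 ≤ (∑ g ∈ GV, (W (g * H) H : ℝ)) ^ 2 :=
            pow_le_pow_left₀ (by positivity) (hpiV.trans hpi') 2
        _ ≤ (GV.card : ℝ) * ∑ g ∈ GV, (W (g * H) H : ℝ) ^ 2 := hcs
        _ ≤ _ := mul_le_mul_of_nonneg_left hsumV (by positivity)
    have h2 : c4 * A * (16 * C * A) = (c0 / 4 * A) ^ 2 := by rw [hc4]; field_simp; ring
    rw [← h2] at h1
    exact le_of_mul_le_mul_right h1 (by positivity)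
  have hGc : c4 * A ≤ ((grid H Y X).card : ℝ) := by
    refine hGVc.trans ?_
    exact_mod_cast card_filter_le _ _
  -- the variations
  have hlog2X : T ≤ Real.log (((2 * X : ℕ)) : ℝ) ∧ Real.log (((2 * X : ℕ)) : ℝ) ≤ 2 * T := by
    push_cast
    rw [Real.log_mul (by norm_num) (by positivity)]
    have := Real.log_two_gt_d9
    have := Real.log_two_lt_d9
    constructor <;> linarith
  have hlog4X : T ≤ Real.log (((4 * X : ℕ)) : ℝ) ∧ Real.log (((4 * X : ℕ)) : ℝ) ≤ 2 * T := by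
    push_cast
    rw [Real.log_mul (by norm_num) (by positivity)]
    have h1 : Real.log 4 = 2 * Real.log 2 := by
      rw [show (4:ℝ) = 2 ^ 2 by norm_num, Real.log_pow]; norm_num
    have := Real.log_two_gt_d9
    have := Real.log_two_lt_d9
    constructor <;> linarith
  have hYge : 2 * T ≤ (Y:ℝ) := by rw [hYr]; nlinarith
  have hYs : (Y:ℝ) ≤ sX := by rw [hYr]; nlinarith
  have hY4 : 2 * (Y:ℝ) * (2 * T) ^ 2 ≤ sX := by
    rw [hYr]
    have h1 : 2 * (H:ℝ) ^ 2 * (2 * T) ^ 2 ≤ 2 * (4 * T ^ 2) * (2 * T) ^ 2 := by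
      apply mul_le_mul_of_nonneg_right _ (by positivity)
      linarith
    have h2 : 2 * (4 * T ^ 2) * (2 * T) ^ 2 = 32 * T ^ 4 := by ring
    have h3 : 0 ≤ T ^ 4 := by positivity
    linarith
  have hNX : N0 ≤ X := by
    have : (N0:ℝ) ≤ X := by linarith
    exact_mod_cast this
  have hdiv : X / Y * Y ≤ X := Nat.div_mul_le_self X Y
  have hYX : Y ≤ X := by
    have : (Y:ℝ) ≤ X := by linarith
    exact_mod_cast this
  have hb2 := (hN0 (2 * X) (by omega)).1 Y (X / Y + 1) (by linarith [hlog2X.2])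
    (by omega)
    (by have h1 : (Real.log (((2 * X : ℕ)) : ℝ)) ^ 2 ≤ (2 * T) ^ 2 :=
          pow_le_pow_left₀ (by linarith [hlog2X.1]) hlog2X.2 2
        have h2 : (Y:ℝ) * (Real.log (((2 * X : ℕ)) : ℝ)) ^ 2 ≤ (Y:ℝ) * (2 * T) ^ 2 :=
          mul_le_mul_of_nonneg_left h1 (by positivity)
        have h3 : 0 ≤ (Y:ℝ) * (2 * T) ^ 2 := by positivity
        push_cast at h2 ⊢
        linarith)
    (by rw [Nat.succ_mul]; omega)
  have hb3 := (hN0 (4 * X) (by omega)).1 (2 * Y) (X / Y + 1) (by push_cast at hlog4X ⊢; linarith [hlog4X.2])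
    (by omega)
    (by have h1 : (Real.log (((4 * X : ℕ)) : ℝ)) ^ 2 ≤ (2 * T) ^ 2 :=
          pow_le_pow_left₀ (by linarith [hlog4X.1]) hlog4X.2 2
        have h2 : ((2 * Y : ℕ) : ℝ) * (Real.log (((4 * X : ℕ)) : ℝ)) ^ 2 ≤ ((2 * Y : ℕ) : ℝ) * (2 * T) ^ 2 :=
          mul_le_mul_of_nonneg_left h1 (by positivity)
        push_cast at h2 ⊢
        linarith)
    (by have : (X / Y + 1) * (2 * Y) = 2 * (X / Y * Y) + 2 * Y := by ring
        omega)
  have hR2 : (((2 * X : ℕ)) : ℝ) / (Real.log (((2 * X : ℕ)) : ℝ)) ^ 2 ≤ 2 * A := by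
    have h1 : T ^ 2 ≤ (Real.log (((2 * X : ℕ)) : ℝ)) ^ 2 := pow_le_pow_left₀ hT0.le hlog2X.1 2
    calc (((2 * X : ℕ)) : ℝ) / (Real.log (((2 * X : ℕ)) : ℝ)) ^ 2 ≤ (((2 * X : ℕ)) : ℝ) / T ^ 2 :=
          div_le_div_of_nonneg_left (by positivity) (by positivity) h1
      _ = 2 * A := by rw [hA]; push_cast; ring
  have hR4 : (((4 * X : ℕ)) : ℝ) / (Real.log (((4 * X : ℕ)) : ℝ)) ^ 2 ≤ 4 * A := by
    have h1 : T ^ 2 ≤ (Real.log (((4 * X : ℕ)) : ℝ)) ^ 2 := pow_le_pow_left₀ hT0.le hlog4X.1 2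
    calc (((4 * X : ℕ)) : ℝ) / (Real.log (((4 * X : ℕ)) : ℝ)) ^ 2 ≤ (((4 * X : ℕ)) : ℝ) / T ^ 2 :=
          div_le_div_of_nonneg_left (by positivity) (by positivity) h1
      _ = 4 * A := by rw [hA]; push_cast; ring
  have hS : (∑ j ∈ hit Y X, (vr Y j : ℝ)) ^ 2 ≤
      ((hit Y X).card : ℝ) * (20 * C * (H:ℝ) ^ 2 * A) := by
    refine sq_sum_le_card_mul_sum_sq.trans (mul_le_mul_of_nonneg_left ?_ (by positivity))
    have h1 : ∑ j ∈ hit Y X, (vr Y j : ℝ) ^ 2 ≤ ∑ j ∈ range (X / Y + 1), (vr Y j : ℝ) ^ 2 :=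
      sum_le_sum_of_subset_of_nonneg (filter_subset _ _) fun _ _ _ => sq_nonneg _
    have h2 : ∑ j ∈ range (X / Y + 1), (vr Y j : ℝ) ^ 2 ≤
        ∑ j ∈ range (X / Y + 1), (2 * (W (j * Y) Y : ℝ) ^ 2 + 2 * (W (j * (2 * Y)) (2 * Y) : ℝ) ^ 2) := by
      apply sum_le_sum
      intro j _
      unfold vr
      push_cast
      nlinarith [sq_nonneg ((W (j * Y) Y : ℝ) - (W (j * (2 * Y)) (2 * Y) : ℝ))]
    rw [sum_add_distrib, ← mul_sum, ← mul_sum] at h2
    have h3 : C * (Y:ℝ) * ((((2 * X : ℕ)) : ℝ) / (Real.log (((2 * X : ℕ)) : ℝ)) ^ 2) ≤ C * Y * (2 * A) :=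
      mul_le_mul_of_nonneg_left hR2 (by positivity)
    have h4 : C * ((2 * Y : ℕ):ℝ) * ((((4 * X : ℕ)) : ℝ) / (Real.log (((4 * X : ℕ)) : ℝ)) ^ 2) ≤
        C * ((2 * Y : ℕ):ℝ) * (4 * A) :=
      mul_le_mul_of_nonneg_left hR4 (by positivity)
    have h5 : C * ((2 * Y : ℕ):ℝ) * (4 * A) = 8 * (C * Y * A) := by push_cast; ring
    have h6 : C * (Y:ℝ) * (2 * A) = 2 * (C * Y * A) := by ring
    have h7 : 20 * C * (H:ℝ) ^ 2 * A = 20 * (C * Y * A) := by rw [hYr]; ring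
    rw [h7]
    linarith
  have hfin := fin_ineq hc4p hC (by positivity : (0:ℝ) ≤ ((hit Y X).card : ℝ)) hApos.le hHr hS
    (card_grid H Y X hHpos) hGc
  rw [div_mul_eq_mul_div, div_le_iff₀ (by positivity)]
  linarith

end Pool.Agent.E139
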