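import Mathlib
import Pool.Agent.E139.Key

/-!
# Sums of an element of a hit block and a small number
-/

set_option autoImplicit false

open Finset Filter

namespace Pool.Agent.E139

lemma sums {B : Finset ℕ} {Y X : ℕ} (hY : 0 < Y) (hB : ∀ b ∈ B, 1 ≤ b ∧ b ≤ Y) :
    (hit Y X).card * B.card ≤ 2 * Set.ncard {n : ℕ | n ≤ X + Y ∧ ∃ k m : ℕ, 0 < k ∧ 0 < m ∧
      k + m = n ∧ (f k).Prime ∧ m ∈ B} := by
  classical
  have hch : ∀ j : ℕ, ∃ m : ℕ, j ∈ hit Y X → (1 ≤ m ∧ m ≤ X ∧ m / Y = j ∧ (f m).Prime) := by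
    intro j
    by_cases h : j ∈ hit Y X
    · have h' := h
      unfold hit at h'
      rw [mem_filter] at h'
      obtain ⟨m, hm⟩ := h'.2
      rw [mem_filter, mem_Icc] at hm
      exact ⟨m, fun _ => ⟨hm.1.1, hm.1.2, hm.2.1, hm.2.2⟩⟩
    · exact ⟨0, fun h' => absurd h' h⟩
  choose g hg using hch
  rw [← card_product]
  have h1 := Finset.card_le_mul_card_image (f := fun z : ℕ × ℕ => g z.1 + z.2) (hit Y X ×ˢ B) 2
    (by
      intro n _
      refine (card_le_card_of_injOn (t := {n / Y - 1, n / Y}) (fun z => z.1) ?_ ?_).trans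
        ((card_insert_le _ _).trans (by simp))
      · intro z hz
        rw [mem_coe, mem_filter, mem_product] at hz
        obtain ⟨⟨hz1, hz2⟩, hz3⟩ := hz
        obtain ⟨g1, g2, g3, g4⟩ := hg z.1 hz1
        obtain ⟨b1, b2⟩ := hB z.2 hz2
        rw [mem_coe, mem_insert, mem_singleton]
        have h2 : z.1 ≤ n / Y := by
          rw [← g3]
          exact Nat.div_le_div_right (by omega)
        have h3 : n / Y ≤ z.1 + 1 := by
          have h4 : n / Y ≤ (g z.1 + Y) / Y := Nat.div_le_div_right (by omega)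
          rw [Nat.add_div_right _ hY, g3] at h4
          exact h4
        change z.1 = n / Y - 1 ∨ z.1 = n / Y
        omega
      · intro a ha b hb hab
        rw [mem_coe, mem_filter] at ha hb
        simp only at hab
        have h2 : a.2 = b.2 := by
          have h3 := ha.2
          have h4 := hb.2
          rw [hab] at h3
          omega
        exact Prod.ext hab h2)
  refine h1.trans (Nat.mul_le_mul_left 2 ?_)
  rw [← Set.ncard_coe_finset]
  apply Set.ncard_le_ncard
  · intro n hn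
    rw [mem_coe, mem_image] at hn
    obtain ⟨z, hz, rfl⟩ := hn
    rw [mem_product] at hz
    obtain ⟨g1, g2, g3, g4⟩ := hg z.1 hz.1
    obtain ⟨b1, b2⟩ := hB z.2 hz.2
    exact ⟨by omega, g z.1, z.2, by omega, by omega, rfl, g4, hz.2⟩
  · exact (Set.finite_Iic (X + Y)).subset fun n hn => hn.1

lemma card_hit_le (Y Z : ℕ) :
    (hit Y Z).card ≤ ((Icc 1 Z).filter (fun m => Nat.Prime (f m))).card := by
  classical
  have h : hit Y Z ⊆ ((Icc 1 Z).filter (fun m => Nat.Prime (f m))).image (fun m => m / Y) := by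
    intro j hj
    unfold hit at hj
    rw [mem_filter] at hj
    obtain ⟨m, hm⟩ := hj.2
    rw [mem_filter] at hm
    rw [mem_image]
    exact ⟨m, mem_filter.mpr ⟨hm.1, hm.2.2⟩, hm.2.1⟩
  exact (card_le_card h).trans card_image_le

lemma sq_card {m0 Y : ℕ} (h1 : 1 ≤ m0) (h2 : m0 ≤ Y) :
    Nat.sqrt (f m0) ≤ ((Icc 1 Y).filter (fun m => IsSquare (f m))).card := by
  classical
  have h : (Icc 1 (Nat.sqrt (f m0))).image (fun s => s * s) ⊆
      ((Icc 1 Y).filter (fun m => IsSquare (f m))).image f := by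
    intro v hv
    rw [mem_image] at hv
    obtain ⟨s, hs, rfl⟩ := hv
    rw [mem_Icc] at hs
    have h3 : s * s ≤ f m0 := (Nat.mul_le_mul hs.2 hs.2).trans (Nat.sqrt_le _)
    obtain ⟨m', h4, h5, h6⟩ := ivt m0 h1 (s * s) (Nat.mul_pos hs.1 hs.1) h3
    rw [mem_image]
    refine ⟨m', mem_filter.mpr ⟨mem_Icc.mpr ⟨h4, h5.trans h2⟩, ?_⟩, h6⟩
    rw [h6]
    exact ⟨s, rfl⟩
  have h7 : (Icc 1 (Nat.sqrt (f m0))).card = ((Icc 1 (Nat.sqrt (f m0))).image (fun s => s * s)).card := by
    rw [card_image_of_injective]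
    intro a b hab
    exact Nat.mul_self_inj.mp hab
  rw [Nat.card_Icc] at h7
  have h8 := (card_le_card h).trans card_image_le
  omega

end Pool.Agent.E139
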