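import Mathlib
import Pool.Agent.E139.Main
import Pool.Agent.E139.Sums

/-!
# Many sums `k + m` with `f k`, `f m` prime, or `f k` prime and `f m` a square
-/

set_option autoImplicit false

open Finset Filter

namespace Pool.Agent.E139

theorem final : ∃ c : ℝ, 0 < c ∧ ∀ᶠ X : ℕ in atTop,
    c * ((X:ℝ) / (Real.log (Real.log X)) ^ 2) ≤
      (Set.ncard {n : ℕ | n ≤ X ∧ ∃ k m : ℕ, 0 < k ∧ 0 < m ∧ k + m = n ∧ (f k).Prime ∧
        (f m).Prime} : ℝ) ∧
    c * ((X:ℝ) / (Real.log X * Real.sqrt (Real.log (Real.log X)))) ≤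
      (Set.ncard {n : ℕ | n ≤ X ∧ ∃ k m : ℕ, 0 < k ∧ 0 < m ∧ k + m = n ∧ (f k).Prime ∧
        IsSquare (f m)} : ℝ) := by
  obtain ⟨c1, hc1, hk⟩ := key
  obtain ⟨c0, hc0, hc01, hf⟩ := fmax
  have hr : ∀ᶠ Y : ℕ in atTop, (4:ℝ) ≤ c0 * ((Y:ℝ) / Real.log Y) := by
    have h := Real.isLittleO_log_id_atTop.bound (show (0:ℝ) < c0 / 4 by positivity)
    filter_upwards [tendsto_natCast_atTop_atTop.eventually h, eventually_ge_atTop 3] with X hX hX3
    have hX3' : (3:ℝ) ≤ X := by exact_mod_cast hX3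
    have hl : 0 < Real.log X := Real.log_pos (by linarith)
    rw [Real.norm_of_nonneg hl.le] at hX
    simp only [id] at hX
    rw [Real.norm_of_nonneg (by linarith)] at hX
    rw [mul_div_assoc', le_div_iff₀ hl]
    linarith
  obtain ⟨N1, hN1⟩ := eventually_atTop.mp (hk.and (hf.and (hr.and (eventually_ge_atTop 3))))
  refine ⟨min (c1 ^ 2 / 128) (c1 * Real.sqrt c0 / 32), by positivity, ?_⟩
  have hlog : Tendsto (fun X : ℕ => Real.log (X:ℝ)) atTop atTop :=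
    Real.tendsto_log_atTop.comp tendsto_natCast_atTop_atTop
  have E2 : ∀ᶠ X : ℕ in atTop, 8 * (Real.log X) ^ 2 ≤ X := by
    have h := isLittleO_log_rpow_rpow_atTop (2 : ℝ) (show (0:ℝ) < 1 by norm_num)
    filter_upwards [tendsto_natCast_atTop_atTop.eventually (h.bound (show (0:ℝ) < 1 / 8 by norm_num)),
      eventually_ge_atTop 3] with X hX hX3
    have hX3' : (3:ℝ) ≤ X := by exact_mod_cast hX3
    have hl : 0 < Real.log X := Real.log_pos (by linarith)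
    rw [Real.norm_of_nonneg (by positivity), Real.norm_of_nonneg (by positivity)] at hX
    have h3 : Real.log X ^ (2:ℝ) = Real.log X ^ 2 := by norm_cast
    rw [h3, Real.rpow_one] at hX
    linarith
  filter_upwards [hlog.eventually_ge_atTop ((N1:ℝ) + 4), E2, eventually_ge_atTop (2 * N1 + 16)]
    with X e1 e2 hXN
  have hX16 : (16:ℝ) ≤ X := by exact_mod_cast (show 16 ≤ X by omega)
  set T : ℝ := Real.log X with hT
  have hN0 : (0:ℝ) ≤ N1 := by positivity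
  have hT4 : 4 ≤ T := by linarith
  set L : ℝ := Real.log T with hL
  have hLpos : 0 < L := Real.log_pos (by linarith)
  set X' : ℕ := X / 2 with hX'
  have hX'N : N1 ≤ X' := by omega
  have hX'1 : (X:ℝ) / 4 ≤ X' := by
    have h1 : X ≤ 2 * X' + 1 := by omega
    have h2 : (X:ℝ) ≤ 2 * (X':ℝ) + 1 := by exact_mod_cast h1
    linarith
  have hX'2 : (X':ℝ) ≤ X := by exact_mod_cast Nat.div_le_self X 2
  have hX'0 : (0:ℝ) < X' := by linarith
  set T' : ℝ := Real.log X' with hT'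
  have hT'T : T' ≤ T := Real.log_le_log hX'0 hX'2
  have hT'2 : T - 2 ≤ T' := by
    have h1 : Real.log ((X:ℝ) / 4) ≤ T' := Real.log_le_log (by positivity) hX'1
    rw [Real.log_div (by positivity) (by norm_num)] at h1
    have h2 : Real.log 4 = 2 * Real.log 2 := by
      rw [show (4:ℝ) = 2 ^ 2 by norm_num, Real.log_pow]; norm_num
    have := Real.log_two_lt_d9
    linarith
  have hT'0 : 2 ≤ T' := by linarith
  set H : ℕ := ⌈T'⌉₊ with hH
  have hTH : T' ≤ H := Nat.le_ceil T'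
  have hHT : (H:ℝ) ≤ T + 1 := (Nat.ceil_lt_add_one (by linarith)).le.trans (by linarith)
  set Y : ℕ := H ^ 2 with hY
  have hYr : (Y:ℝ) = (H:ℝ) ^ 2 := by rw [hY]; push_cast; rfl
  have hYT : T' ^ 2 ≤ (Y:ℝ) := by rw [hYr]; exact pow_le_pow_left₀ (by linarith) hTH 2
  have hYN : N1 ≤ Y := by
    have : (N1:ℝ) ≤ Y := by nlinarith
    exact_mod_cast this
  have hYpos : 0 < Y := by
    have : (0:ℝ) < Y := by nlinarith
    exact_mod_cast this
  have hY2 : (Y:ℝ) ≤ 4 * T ^ 2 := by rw [hYr]; nlinarith [Nat.cast_nonneg (α := ℝ) H]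
  have hYX : 2 * Y ≤ X := by
    have : 2 * (Y:ℝ) ≤ X := by linarith
    exact_mod_cast this
  have hXY : X' + Y ≤ X := by omega
  have hlogY : Real.log Y ≤ 4 * L := by
    have h1 : (Y:ℝ) ≤ T ^ 4 := by
      have h16 : 16 ≤ T ^ 2 := by nlinarith
      have h17 : T ^ 4 = T ^ 2 * T ^ 2 := by ring
      have h18 : 16 * T ^ 2 ≤ T ^ 2 * T ^ 2 := mul_le_mul_of_nonneg_right h16 (by positivity)
      have h19 : 0 ≤ T ^ 2 := by positivity
      linarith
    have h2 : Real.log Y ≤ Real.log (T ^ 4) := Real.log_le_log (by exact_mod_cast hYpos) h1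
    rw [Real.log_pow] at h2
    exact_mod_cast h2
  obtain ⟨kX, -⟩ := hN1 X' hX'N
  obtain ⟨kY, fY, rY, Y3⟩ := hN1 Y hYN
  have hY3' : (3:ℝ) ≤ Y := by exact_mod_cast Y3
  have hlY : 0 < Real.log Y := Real.log_pos (by linarith)
  have hXhit : c1 * ((X':ℝ) / T' ^ 2) ≤ ((hit Y X').card : ℝ) := kX
  set h0 : ℝ := ((hit Y X').card : ℝ) with hh0
  have hh00 : 0 ≤ h0 := by positivity
  constructor
  · -- both prime
    set B := (Icc 1 Y).filter (fun m => Nat.Prime (f m)) with hB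
    have hs := sums (B := B) (Y := Y) (X := X') hYpos (fun b hb => by
      rw [hB, mem_filter, mem_Icc] at hb; exact hb.1)
    have hBc : c1 * ((Y:ℝ) / (Real.log Y) ^ 2) ≤ (B.card : ℝ) := by
      refine kY.trans ?_
      exact_mod_cast card_hit_le _ _
    have hmono : Set.ncard {n : ℕ | n ≤ X' + Y ∧ ∃ k m : ℕ, 0 < k ∧ 0 < m ∧
        k + m = n ∧ (f k).Prime ∧ m ∈ B} ≤ Set.ncard {n : ℕ | n ≤ X ∧ ∃ k m : ℕ, 0 < k ∧ 0 < m ∧
        k + m = n ∧ (f k).Prime ∧ (f m).Prime} := by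
      apply Set.ncard_le_ncard
      · rintro n ⟨h1, k, m, h2, h3, h4, h5, h6⟩
        rw [hB, mem_filter] at h6
        exact ⟨h1.trans hXY, k, m, h2, h3, h4, h5, h6.2⟩
      · exact (Set.finite_Iic X).subset fun n hn => hn.1
    set S := Set.ncard {n : ℕ | n ≤ X ∧ ∃ k m : ℕ, 0 < k ∧ 0 < m ∧
        k + m = n ∧ (f k).Prime ∧ (f m).Prime} with hS
    have h1 : h0 * (B.card : ℝ) ≤ 2 * (S:ℝ) := by
      have h2 : (hit Y X').card * B.card ≤ 2 * S := hs.trans (Nat.mul_le_mul_left 2 hmono)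
      rw [hh0]
      exact_mod_cast h2
    have h2 : c1 * ((X':ℝ) / T' ^ 2) * (c1 * ((Y:ℝ) / (Real.log Y) ^ 2)) ≤ h0 * (B.card : ℝ) :=
      mul_le_mul hXhit hBc (by positivity) hh00
    have h3 : c1 ^ 2 * ((X:ℝ) / 4 / (4 * L) ^ 2) ≤
        c1 * ((X':ℝ) / T' ^ 2) * (c1 * ((Y:ℝ) / (Real.log Y) ^ 2)) := by
      have h4 : c1 * ((X':ℝ) / T' ^ 2) * (c1 * ((Y:ℝ) / (Real.log Y) ^ 2)) =
          c1 ^ 2 * ((X':ℝ) * ((Y:ℝ) / T' ^ 2) / (Real.log Y) ^ 2) := by ring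
      rw [h4]
      apply mul_le_mul_of_nonneg_left _ (by positivity)
      have h5 : 1 ≤ (Y:ℝ) / T' ^ 2 := by rw [le_div_iff₀ (by positivity)]; linarith
      have h6 : (X:ℝ) / 4 ≤ (X':ℝ) * ((Y:ℝ) / T' ^ 2) := by nlinarith
      exact div_le_div₀ (by positivity) h6 (by positivity) (pow_le_pow_left₀ hlY.le hlogY 2)
    have h7 : c1 ^ 2 * ((X:ℝ) / 4 / (4 * L) ^ 2) = 2 * (c1 ^ 2 / 128 * ((X:ℝ) / L ^ 2)) := by
      field_simp
      norm_num
    have h8 : min (c1 ^ 2 / 128) (c1 * Real.sqrt c0 / 32) * ((X:ℝ) / L ^ 2) ≤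
        c1 ^ 2 / 128 * ((X:ℝ) / L ^ 2) :=
      mul_le_mul_of_nonneg_right (min_le_left _ _) (by positivity)
    linarith
  · -- prime and square
    set B := (Icc 1 Y).filter (fun m => IsSquare (f m)) with hB
    have hs := sums (B := B) (Y := Y) (X := X') hYpos (fun b hb => by
      rw [hB, mem_filter, mem_Icc] at hb; exact hb.1)
    obtain ⟨m0, hm1, hmY, hm0⟩ := fY
    have hBc : Real.sqrt (c0 * ((Y:ℝ) / Real.log Y)) / 2 ≤ (B.card : ℝ) := by
      have h1 : (Nat.sqrt (f m0) : ℝ) ≤ (B.card : ℝ) := by exact_mod_cast sq_card hm1 hmY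
      have h2 : Real.sqrt (c0 * ((Y:ℝ) / Real.log Y)) ≤ (Nat.sqrt (f m0) : ℝ) + 1 := by
        have h3 : Real.sqrt (c0 * ((Y:ℝ) / Real.log Y)) ≤ Real.sqrt (f m0 : ℝ) :=
          Real.sqrt_le_sqrt hm0
        refine h3.trans ?_
        rw [Real.sqrt_le_left (by positivity)]
        have h4 := Nat.lt_succ_sqrt (f m0)
        have h5 : ((f m0 : ℕ) : ℝ) < ((Nat.sqrt (f m0) : ℝ) + 1) * ((Nat.sqrt (f m0) : ℝ) + 1) := by
          exact_mod_cast h4
        nlinarith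
      have h3 : 2 ≤ Real.sqrt (c0 * ((Y:ℝ) / Real.log Y)) := by
        rw [show (2:ℝ) = Real.sqrt 4 by rw [show (4:ℝ) = 2 ^ 2 by norm_num, Real.sqrt_sq (by norm_num)]]
        exact Real.sqrt_le_sqrt rY
      linarith
    have hmono : Set.ncard {n : ℕ | n ≤ X' + Y ∧ ∃ k m : ℕ, 0 < k ∧ 0 < m ∧
        k + m = n ∧ (f k).Prime ∧ m ∈ B} ≤ Set.ncard {n : ℕ | n ≤ X ∧ ∃ k m : ℕ, 0 < k ∧ 0 < m ∧
        k + m = n ∧ (f k).Prime ∧ IsSquare (f m)} := by
      apply Set.ncard_le_ncard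
      · rintro n ⟨h1, k, m, h2, h3, h4, h5, h6⟩
        rw [hB, mem_filter] at h6
        exact ⟨h1.trans hXY, k, m, h2, h3, h4, h5, h6.2⟩
      · exact (Set.finite_Iic X).subset fun n hn => hn.1
    set S := Set.ncard {n : ℕ | n ≤ X ∧ ∃ k m : ℕ, 0 < k ∧ 0 < m ∧
        k + m = n ∧ (f k).Prime ∧ IsSquare (f m)} with hS
    have h1 : h0 * (B.card : ℝ) ≤ 2 * (S:ℝ) := by
      have h2 : (hit Y X').card * B.card ≤ 2 * S := hs.trans (Nat.mul_le_mul_left 2 hmono)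
      rw [hh0]
      exact_mod_cast h2
    have h2 : c1 * ((X':ℝ) / T' ^ 2) * (Real.sqrt (c0 * ((Y:ℝ) / Real.log Y)) / 2) ≤
        h0 * (B.card : ℝ) := mul_le_mul hXhit hBc (by positivity) hh00
    have h3 : Real.sqrt c0 * T' / (2 * Real.sqrt L) ≤ Real.sqrt (c0 * ((Y:ℝ) / Real.log Y)) := by
      have h4 : c0 * (T' ^ 2 / (4 * L)) ≤ c0 * ((Y:ℝ) / Real.log Y) := by
        apply mul_le_mul_of_nonneg_left _ hc0.le
        exact div_le_div₀ (by positivity) hYT hlY hlogY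
      have h5 := Real.sqrt_le_sqrt h4
      refine le_trans (le_of_eq ?_) h5
      rw [Real.sqrt_mul hc0.le, Real.sqrt_div (by positivity), Real.sqrt_sq (by linarith),
        Real.sqrt_mul (by norm_num : (0:ℝ) ≤ 4),
        show Real.sqrt 4 = 2 by rw [show (4:ℝ) = 2 ^ 2 by norm_num, Real.sqrt_sq (by norm_num)]]
      ring
    have h4 : c1 * ((X':ℝ) / T' ^ 2) * (Real.sqrt c0 * T' / (2 * Real.sqrt L) / 2) ≤ 2 * (S:ℝ) := by
      refine le_trans ?_ (h2.trans h1)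
      apply mul_le_mul_of_nonneg_left _ (by positivity)
      linarith
    have hsL : 0 < Real.sqrt L := Real.sqrt_pos.mpr hLpos
    have h5 : c1 * Real.sqrt c0 / 16 * ((X:ℝ) / (T * Real.sqrt L)) ≤
        c1 * ((X':ℝ) / T' ^ 2) * (Real.sqrt c0 * T' / (2 * Real.sqrt L) / 2) := by
      have h6 : c1 * ((X':ℝ) / T' ^ 2) * (Real.sqrt c0 * T' / (2 * Real.sqrt L) / 2) =
          c1 * Real.sqrt c0 / 4 * ((X':ℝ) / (T' * Real.sqrt L)) := by
        have hT'p : 0 < T' := by linarith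
        field_simp
        ring
      have h7 : c1 * Real.sqrt c0 / 16 * ((X:ℝ) / (T * Real.sqrt L)) =
          c1 * Real.sqrt c0 / 4 * ((X:ℝ) / 4 / (T * Real.sqrt L)) := by ring
      rw [h6, h7]
      apply mul_le_mul_of_nonneg_left _ (by positivity)
      exact div_le_div₀ hX'0.le hX'1 (by positivity) (mul_le_mul_of_nonneg_right hT'T hsL.le)
    have h8 : min (c1 ^ 2 / 128) (c1 * Real.sqrt c0 / 32) * ((X:ℝ) / (T * Real.sqrt L)) ≤
        c1 * Real.sqrt c0 / 32 * ((X:ℝ) / (T * Real.sqrt L)) :=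
      mul_le_mul_of_nonneg_right (min_le_right _ _) (by positivity)
    linarith

end Pool.Agent.E139
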